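import Mathlib

/-!
# The sum of the reciprocals of the radicals of the integers up to `x`
-/

set_option autoImplicit false

namespace Pool.Agent.V8H74.EN

open Finset

/-- the radical -/
noncomputable def rad (n : ℕ) : ℝ := ∏ p ∈ n.primeFactors, (p : ℝ)

theorem rad_pos (n : ℕ) : 0 < rad n :=
  Finset.prod_pos fun p hp => by exact_mod_cast (Nat.prime_of_mem_primeFactors hp).pos

/-- the multiplicative function `n ^ (-ε) / rad n` -/
noncomputable def fr (ε : ℝ) (n : ℕ) : ℝ := (n : ℝ) ^ (-ε) / rad n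

theorem fr_nonneg (ε : ℝ) (n : ℕ) : 0 ≤ fr ε n :=
  div_nonneg (Real.rpow_nonneg (Nat.cast_nonneg n) _) (rad_pos n).le

theorem fr_one (ε : ℝ) : fr ε 1 = 1 := by simp [fr, rad]

theorem fr_mul (ε : ℝ) {m n : ℕ} (h : Nat.Coprime m n) : fr ε (m * n) = fr ε m * fr ε n := by
  unfold fr rad
  rw [h.primeFactors_mul, Finset.prod_union h.disjoint_primeFactors, Nat.cast_mul,
    Real.mul_rpow (Nat.cast_nonneg m) (Nat.cast_nonneg n), mul_div_mul_comm]

theorem fr_pow (ε : ℝ) {p : ℕ} (hp : p.Prime) (n : ℕ) :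
    fr ε (p ^ (n + 1)) = ((p : ℝ) ^ (-ε)) ^ (n + 1) / p := by
  unfold fr rad
  rw [Nat.primeFactors_prime_pow (Nat.succ_ne_zero n) hp, Finset.prod_singleton]
  congr 1
  rw [Nat.cast_pow, ← Real.rpow_natCast, ← Real.rpow_natCast, ← Real.rpow_mul (Nat.cast_nonneg p),
    ← Real.rpow_mul (Nat.cast_nonneg p), mul_comm]

theorem fr_prime (ε : ℝ) (hε : 0 < ε) {p : ℕ} (hp : p.Prime) :
    HasSum (fun n : ℕ => fr ε (p ^ n)) (1 + (p : ℝ) ^ (-ε) / p * (1 - (p : ℝ) ^ (-ε))⁻¹) := by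
  have hp1 : (1 : ℝ) < p := by exact_mod_cast hp.one_lt
  have hr0 : 0 ≤ (p : ℝ) ^ (-ε) := Real.rpow_nonneg (by linarith) _
  have hr1 : (p : ℝ) ^ (-ε) < 1 := Real.rpow_lt_one_of_one_lt_of_neg hp1 (by linarith)
  have h1 := (hasSum_geometric_of_lt_one hr0 hr1).mul_left ((p : ℝ) ^ (-ε) / p)
  have h2 : HasSum (fun n : ℕ => fr ε (p ^ (n + 1))) ((p : ℝ) ^ (-ε) / p * (1 - (p : ℝ) ^ (-ε))⁻¹) := by
    refine h1.congr_fun ?_
    intro n
    rw [fr_pow ε hp, pow_succ]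
    ring
  have h3 := (hasSum_nat_add_iff (f := fun n : ℕ => fr ε (p ^ n)) 1).1 h2
  rw [Finset.sum_range_one, pow_zero, fr_one, add_comm] at h3
  exact h3

theorem rad_sum (ε : ℝ) (hε : 0 < ε) : ∃ C : ℝ, 0 ≤ C ∧ ∀ x : ℕ,
    ∑ c ∈ Finset.Icc 1 x, 1 / rad c ≤ C * (x : ℝ) ^ ε := by
  classical
  set K : ℝ := (1 - (2 : ℝ) ^ (-ε))⁻¹ with hK
  have hK1 : (2 : ℝ) ^ (-ε) < 1 := Real.rpow_lt_one_of_one_lt_of_neg (by norm_num) (by linarith)
  have hK0 : 0 ≤ K := inv_nonneg.2 (by linarith)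
  have hsumm : Summable (fun n : ℕ => (n : ℝ) ^ (-(1 + ε))) :=
    Real.summable_nat_rpow.2 (by linarith)
  set Z : ℝ := ∑' n : ℕ, (n : ℝ) ^ (-(1 + ε)) with hZ
  refine ⟨Real.exp (K * Z), (Real.exp_pos _).le, fun x => ?_⟩
  obtain ⟨-, h2⟩ := EulerProduct.summable_and_hasSum_factoredNumbers_prod_filter_prime_tsum
    (f := fr ε) (fr_one ε) (fun {m n} h => fr_mul ε h)
    (fun {p} hp => ((fr_prime ε hε hp).summable).norm) (Finset.range (x + 1))
  have h3 : ∑ c ∈ Finset.Icc 1 x, fr ε c ≤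
      ∏ p ∈ Finset.range (x + 1) with p.Prime, ∑' n : ℕ, fr ε (p ^ n) := by
    have hmem : ∀ c ∈ Finset.Icc 1 x, c ∈ Nat.factoredNumbers (Finset.range (x + 1)) := by
      intro c hc
      rw [Finset.mem_Icc] at hc
      rw [Nat.mem_factoredNumbers']
      intro p hp hpc
      rw [Finset.mem_range]
      have := Nat.le_of_dvd (by omega) hpc
      omega
    rw [← Finset.sum_subtype_of_mem (fun c => fr ε c) hmem]
    exact sum_le_hasSum _ (fun i _ => fr_nonneg ε i) h2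
  have h4 : ∏ p ∈ Finset.range (x + 1) with p.Prime, ∑' n : ℕ, fr ε (p ^ n) ≤ Real.exp (K * Z) := by
    have h5 : ∀ p ∈ (Finset.range (x + 1)).filter Nat.Prime, ∑' n : ℕ, fr ε (p ^ n) ≤
        Real.exp (K * (p : ℝ) ^ (-(1 + ε))) := by
      intro p hp
      have hpp := (Finset.mem_filter.1 hp).2
      rw [(fr_prime ε hε hpp).tsum_eq]
      have hp2 : (2 : ℝ) ≤ p := by exact_mod_cast hpp.two_le
      have h6 : (p : ℝ) ^ (-ε) ≤ (2 : ℝ) ^ (-ε) :=
        Real.rpow_le_rpow_of_nonpos (by norm_num) hp2 (by linarith)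
      have h7 : (1 - (p : ℝ) ^ (-ε))⁻¹ ≤ K := inv_anti₀ (by linarith) (by linarith)
      have h8 : (p : ℝ) ^ (-ε) / p = (p : ℝ) ^ (-(1 + ε)) := by
        have hp0 : (0 : ℝ) < p := by linarith
        rw [show -(1 + ε) = -ε - 1 by ring, Real.rpow_sub_one hp0.ne']
      rw [h8]
      have h9 : 0 ≤ (p : ℝ) ^ (-(1 + ε)) := Real.rpow_nonneg (by linarith) _
      calc 1 + (p : ℝ) ^ (-(1 + ε)) * (1 - (p : ℝ) ^ (-ε))⁻¹
          ≤ 1 + (p : ℝ) ^ (-(1 + ε)) * K := by gcongr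
        _ = K * (p : ℝ) ^ (-(1 + ε)) + 1 := by ring
        _ ≤ Real.exp (K * (p : ℝ) ^ (-(1 + ε))) := Real.add_one_le_exp _
    refine (Finset.prod_le_prod (fun p _ => tsum_nonneg fun n => fr_nonneg ε _) h5).trans ?_
    rw [← Real.exp_sum]
    apply Real.exp_le_exp.2
    rw [← Finset.mul_sum]
    apply mul_le_mul_of_nonneg_left _ hK0
    exact hsumm.sum_le_tsum _ (fun i _ => Real.rpow_nonneg (Nat.cast_nonneg i) _)
  have h10 : ∑ c ∈ Finset.Icc 1 x, 1 / rad c ≤ ∑ c ∈ Finset.Icc 1 x, (x : ℝ) ^ ε * fr ε c := by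
    refine Finset.sum_le_sum fun c hc => ?_
    rw [Finset.mem_Icc] at hc
    have hc0 : (0 : ℝ) < c := by exact_mod_cast (by omega : 0 < c)
    have hcx : (c : ℝ) ≤ x := by exact_mod_cast hc.2
    unfold fr
    rw [← mul_div_assoc]
    apply div_le_div_of_nonneg_right _ (rad_pos c).le
    calc (1 : ℝ) = (c : ℝ) ^ ε * (c : ℝ) ^ (-ε) := by
          rw [← Real.rpow_add hc0, add_neg_cancel, Real.rpow_zero]
      _ ≤ (x : ℝ) ^ ε * (c : ℝ) ^ (-ε) := by
          apply mul_le_mul_of_nonneg_right _ (Real.rpow_nonneg hc0.le _)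
          exact Real.rpow_le_rpow hc0.le hcx hε.le
  rw [← Finset.mul_sum] at h10
  refine h10.trans ?_
  rw [mul_comm]
  exact mul_le_mul_of_nonneg_right (h3.trans h4) (Real.rpow_nonneg (Nat.cast_nonneg x) _)

open scoped Classical in
/-- the number of pairs `(c, c')` such that every prime divisor of `c` divides `c'` -/
theorem card_supp (x : ℕ) : ((((Finset.Icc 2 x) ×ˢ (Finset.Icc 2 x)).filter
    (fun s : ℕ × ℕ => ∀ p : ℕ, p.Prime → p ∣ s.1 → p ∣ s.2)).card : ℝ) ≤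
    x * ∑ c ∈ Finset.Icc 1 x, 1 / rad c := by
  have h1 : (((Finset.Icc 2 x) ×ˢ (Finset.Icc 2 x)).filter
      (fun s : ℕ × ℕ => ∀ p : ℕ, p.Prime → p ∣ s.1 → p ∣ s.2)).card ≤
      ∑ c ∈ Finset.Icc 1 x, x / (∏ p ∈ c.primeFactors, p) := by
    rw [Finset.card_eq_sum_card_fiberwise (f := Prod.fst) (t := Finset.Icc 1 x)]
    · refine Finset.sum_le_sum fun c hc => ?_
      rw [← Nat.card_multiples' x (∏ p ∈ c.primeFactors, p)]
      refine Finset.card_le_card_of_injOn Prod.snd ?_ ?_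
      · intro s hs
        simp only [Finset.coe_filter, Finset.mem_filter, Finset.mem_product, Finset.mem_Icc,
          Set.mem_ofPred_eq] at hs
        simp only [Finset.coe_filter, Finset.mem_range, Set.mem_ofPred_eq]
        refine ⟨by omega, by omega, ?_⟩
        apply Finset.prod_primes_dvd
        · intro p hp
          exact (Nat.prime_of_mem_primeFactors hp).prime
        · intro p hp
          refine hs.1.2 p (Nat.prime_of_mem_primeFactors hp) ?_
          rw [hs.2]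
          exact Nat.dvd_of_mem_primeFactors hp
      · intro s hs t ht hst
        simp only [Finset.coe_filter, Finset.mem_filter, Set.mem_ofPred_eq] at hs ht
        exact Prod.ext (hs.2.trans ht.2.symm) hst
    · intro s hs
      simp only [Finset.coe_filter, Finset.mem_product, Finset.mem_Icc, Set.mem_ofPred_eq] at hs
      simp only [Finset.coe_Icc, Set.mem_Icc]
      omega
  calc ((((Finset.Icc 2 x) ×ˢ (Finset.Icc 2 x)).filter
      (fun s : ℕ × ℕ => ∀ p : ℕ, p.Prime → p ∣ s.1 → p ∣ s.2)).card : ℝ)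
      ≤ ((∑ c ∈ Finset.Icc 1 x, x / (∏ p ∈ c.primeFactors, p) : ℕ) : ℝ) := by exact_mod_cast h1
    _ = ∑ c ∈ Finset.Icc 1 x, ((x / (∏ p ∈ c.primeFactors, p) : ℕ) : ℝ) := by push_cast; rfl
    _ ≤ ∑ c ∈ Finset.Icc 1 x, (x : ℝ) * (1 / rad c) := by
        refine Finset.sum_le_sum fun c _ => ?_
        refine Nat.cast_div_le.trans ?_
        rw [mul_one_div]
        unfold rad
        push_cast
        exact le_rfl
    _ = _ := by rw [Finset.mul_sum]

end Pool.Agent.V8H74.EN
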