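import Pool.Agent.V8H74.EN.Log
import Pool.Agent.V8H74.EN.Rad

/-!
# Coincidences among the ratios `log a / log b`
-/

set_option autoImplicit false

namespace Pool.Agent.V8H74.EN

open Module Finset
open scoped Classical

/-- the pairs of integers in `[2, x]` -/
def bx (x : ℕ) : Finset (ℕ × ℕ) := Finset.Icc 2 x ×ˢ Finset.Icc 2 x

/-- `log a / log b = log c / log d` -/
def Same (P Q : ℕ × ℕ) : Prop := Real.log P.1 * Real.log Q.2 = Real.log P.2 * Real.log Q.1

/-- `log b` is not a rational multiple of `log a` -/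
def Irr (a b : ℕ) : Prop := ∀ q : ℚ, Real.log b ≠ q * Real.log a

theorem mem_bx {x : ℕ} {P : ℕ × ℕ} : P ∈ bx x ↔ 2 ≤ P.1 ∧ P.1 ≤ x ∧ 2 ≤ P.2 ∧ P.2 ≤ x := by
  simp only [bx, Finset.mem_product, Finset.mem_Icc]
  tauto

theorem log_pos' {n : ℕ} (hn : 2 ≤ n) : 0 < Real.log n :=
  Real.log_pos (by exact_mod_cast (by omega : 1 < n))

theorem log_inj {m n : ℕ} (hm : 2 ≤ m) (hn : 2 ≤ n) (h : Real.log m = Real.log n) : m = n := by
  have hm0 : (0 : ℝ) < m := by exact_mod_cast (by omega : 0 < m)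
  have hn0 : (0 : ℝ) < n := by exact_mod_cast (by omega : 0 < n)
  exact_mod_cast Real.log_injOn_pos hm0 hn0 h

theorem Same.symm {P Q : ℕ × ℕ} (h : Same P Q) : Same Q P := by
  unfold Same at *
  linarith

theorem Same.trans {P Q R : ℕ × ℕ} {x : ℕ} (hQ : Q ∈ bx x) (h : Same P Q) (h' : Same Q R) :
    Same P R := by
  unfold Same at *
  have h1 := log_pos' (mem_bx.1 hQ).2.2.1
  apply mul_right_cancel₀ h1.ne'
  linear_combination (Real.log R.2) * h + (Real.log P.2) * h'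

theorem Same.eq_of_fst {P Q : ℕ × ℕ} {x : ℕ} (hP : P ∈ bx x) (hQ : Q ∈ bx x) (h : Same P Q)
    (h1 : P.1 = Q.1) : P = Q := by
  unfold Same at h
  rw [← h1] at h
  have h2 := log_pos' (mem_bx.1 hP).1
  have h3 : Real.log Q.2 = Real.log P.2 := by
    apply mul_left_cancel₀ h2.ne'
    linarith
  exact Prod.ext h1 (log_inj (mem_bx.1 hP).2.2.1 (mem_bx.1 hQ).2.2.1 h3.symm)

/-- the size of a class -/
theorem class_card (x a b : ℕ) (ha : 2 ≤ a) (h : Irr a b) :
    ((bx x).filter (Same (a, b))).card ≤ (Nat.log 2 x + 1) ^ 2 := by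
  set lam : ℝ := Real.log b / Real.log a with hlam
  have hla := log_pos' ha
  have hirr : ∀ q : ℚ, lam ≠ q := by
    intro q hq
    apply h q
    rw [← hq, hlam]
    field_simp
  obtain ⟨hf, hr⟩ := Wl_rank lam hirr
  have h1 : ((bx x).filter (Same (a, b))).card =
      (((bx x).filter (Same (a, b))).image Prod.fst).card := by
    rw [Finset.card_image_of_injOn]
    intro P hP Q hQ hPQ
    simp only [Finset.coe_filter, Set.mem_ofPred_eq] at hP hQ
    refine Same.eq_of_fst hP.1 hQ.1 ?_ hPQ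
    unfold Same at *
    apply mul_left_cancel₀ hla.ne'
    linear_combination (Real.log Q.1) * (- hP.2) + (Real.log P.1) * hQ.2
  rw [h1]
  refine count_rank (Wl lam) 2 hr x _ ?_
  intro c hc
  obtain ⟨P, hP, rfl⟩ := Finset.mem_image.1 hc
  obtain ⟨hP1, hP2⟩ := Finset.mem_filter.1 hP
  have hP3 := mem_bx.1 hP1
  refine ⟨by omega, hP3.2.1, Submodule.subset_span ⟨P.1, P.2, by omega, by omega, rfl, ?_⟩⟩
  unfold Same at hP2
  rw [hlam]
  field_simp
  linarith

/-- integers with commensurable logarithms are powers of one integer -/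
theorem pow_struct (a b : ℕ) (q : ℚ) (ha : 2 ≤ a) (hb : 2 ≤ b) (hab : a ≠ b)
    (h : Real.log b = q * Real.log a) :
    ∃ u : ℕ, 2 ≤ u ∧ a = u ^ q.den ∧ b = u ^ q.num.toNat ∧ q.num.toNat ≠ q.den ∧
      1 ≤ q.num.toNat := by
  have hla := log_pos' ha
  have hlb := log_pos' hb
  have hq : (0 : ℝ) < q := by
    by_contra hcon
    rw [not_lt] at hcon
    have := mul_nonpos_of_nonpos_of_nonneg hcon hla.le
    linarith
  have hq' : 0 < q := by exact_mod_cast hq
  have hnum : 0 < q.num := Rat.num_pos.2 hq'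
  set j : ℕ := q.num.toNat with hj
  set i : ℕ := q.den with hi
  have hi0 : 0 < i := q.den_pos
  have hj0 : 0 < j := by omega
  have hjz : (j : ℤ) = q.num := Int.toNat_of_nonneg hnum.le
  have hcop : Nat.Coprime j i := by
    have := q.reduced
    rwa [← hjz, Int.natAbs_natCast] at this
  have hqe : (q : ℝ) = (j : ℝ) / (i : ℝ) := by
    have h1 : (q : ℝ) = (q.num : ℝ) / (q.den : ℝ) := by exact_mod_cast (Rat.num_div_den q).symm
    rw [h1, ← hjz]
    push_cast
    rfl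
  have hi0' : (0 : ℝ) < i := by exact_mod_cast hi0
  have e1 : b ^ i = a ^ j := by
    have h2 : Real.log ((b ^ i : ℕ) : ℝ) = Real.log ((a ^ j : ℕ) : ℝ) := by
      push_cast
      rw [Real.log_pow, Real.log_pow, h, hqe]
      field_simp
    have hb0 : (0 : ℝ) < ((b ^ i : ℕ) : ℝ) := by exact_mod_cast Nat.pow_pos (by omega)
    have ha0 : (0 : ℝ) < ((a ^ j : ℕ) : ℝ) := by exact_mod_cast Nat.pow_pos (by omega)
    exact_mod_cast Real.log_injOn_pos hb0 ha0 h2
  have hdvd : ∀ p, i ∣ a.factorization p := by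
    intro p
    have h3 : (b ^ i).factorization p = (a ^ j).factorization p := by rw [e1]
    rw [Nat.factorization_pow, Nat.factorization_pow, Finsupp.smul_apply, Finsupp.smul_apply,
      smul_eq_mul, smul_eq_mul] at h3
    exact (Nat.Coprime.dvd_of_dvd_mul_left hcop.symm (h3 ▸ dvd_mul_right i _))
  set u : ℕ := Nat.floorRoot i a with hu
  have hu0 : u ≠ 0 := Nat.floorRoot_ne_zero.2 ⟨by omega, by omega⟩
  have hau : a = u ^ i := by
    refine Nat.eq_of_factorization_eq (by omega) (pow_ne_zero _ hu0) fun p => ?_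
    rw [Nat.factorization_pow, hu, Nat.factorization_floorRoot, Finsupp.smul_apply, smul_eq_mul]
    obtain ⟨k, hk⟩ := hdvd p
    have h4 : (a.factorization ⌊/⌋ i) p = a.factorization p / i := rfl
    rw [h4, hk, Nat.mul_div_cancel_left _ hi0]
  have hbu : b = u ^ j := by
    rw [hau, ← pow_mul, mul_comm i j, pow_mul] at e1
    exact Nat.pow_left_injective (by omega) e1
  have hu2 : 2 ≤ u := by
    by_contra hcon
    have : u = 1 := by omega
    rw [this, one_pow] at hau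
    omega
  refine ⟨u, hu2, hau, hbu, ?_, hj0⟩
  intro hij
  apply hab
  rw [hau, hbu, hij]

/-- the pairs of pairs `(P, Q)` with `log P.1 / log P.2 = log Q.1 / log Q.2` rational and different
from one -/
noncomputable def Dep (x : ℕ) : Finset ((ℕ × ℕ) × (ℕ × ℕ)) :=
  (bx x ×ˢ bx x).filter fun s => Same s.1 s.2 ∧ s.1.1 ≠ s.1.2 ∧ ¬ Irr s.1.1 s.1.2

theorem card_Dep (x : ℕ) : (Dep x).card ≤ x * (Nat.log 2 x + 1) ^ 2 := by
  set L := Nat.log 2 x + 1 with hL
  have hsub : Dep x ⊆ ((Finset.Icc 1 (Nat.sqrt x) ×ˢ Finset.Icc 1 (Nat.sqrt x)) ×ˢ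
      (Finset.range L ×ˢ Finset.range L)).image
      (fun t => ((t.1.1 ^ t.2.1, t.1.1 ^ t.2.2), (t.1.2 ^ t.2.1, t.1.2 ^ t.2.2))) := by
    intro s hs
    obtain ⟨hs1, hs2, hs3, hs4⟩ := Finset.mem_filter.1 hs
    obtain ⟨hP, hQ⟩ := Finset.mem_product.1 hs1
    rw [mem_bx] at hP hQ
    unfold Irr at hs4
    push Not at hs4
    obtain ⟨q, hq⟩ := hs4
    have hq2 : Real.log s.2.2 = q * Real.log s.2.1 := by
      unfold Same at hs2
      apply mul_left_cancel₀ (log_pos' hP.1).ne'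
      rw [hs2, hq]
      ring
    have hne : s.2.1 ≠ s.2.2 := by
      intro h
      apply hs3
      unfold Same at hs2
      rw [h] at hs2
      have := mul_right_cancel₀ (log_pos' hQ.2.2.1).ne' hs2
      exact log_inj hP.1 hP.2.2.1 this
    obtain ⟨u, hu, h1, h2, h3, h4⟩ := pow_struct s.1.1 s.1.2 q hP.1 hP.2.2.1 hs3 hq
    obtain ⟨v, hv, h5, h6, -, -⟩ := pow_struct s.2.1 s.2.2 q hQ.1 hQ.2.2.1 hne hq2
    have hden := q.den_pos
    have key : ∀ w m n : ℕ, 2 ≤ w → w ^ m ≤ x → w ^ n ≤ x → 1 ≤ m → 1 ≤ n → n ≠ m →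
        w ∈ Finset.Icc 1 (Nat.sqrt x) ∧ m ∈ Finset.range L ∧ n ∈ Finset.range L := by
      intro w m n hw hm hn hm1 hn1 hmn
      refine ⟨?_, ?_, ?_⟩
      · rw [Finset.mem_Icc, Nat.le_sqrt']
        refine ⟨by omega, ?_⟩
        rcases lt_or_gt_of_ne hmn with h | h
        · exact (Nat.pow_le_pow_right (by omega) (by omega)).trans hm
        · exact (Nat.pow_le_pow_right (by omega) (by omega)).trans hn
      · rw [Finset.mem_range, hL, Nat.lt_succ_iff]
        exact Nat.le_log_of_pow_le (by norm_num) ((Nat.pow_le_pow_left hw _).trans hm)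
      · rw [Finset.mem_range, hL, Nat.lt_succ_iff]
        exact Nat.le_log_of_pow_le (by norm_num) ((Nat.pow_le_pow_left hw _).trans hn)
    have k1 := key u q.den q.num.toNat hu (h1 ▸ hP.2.1) (h2 ▸ hP.2.2.2) hden h4 h3
    have k2 := key v q.den q.num.toNat hv (h5 ▸ hQ.2.1) (h6 ▸ hQ.2.2.2) hden h4 h3
    rw [Finset.mem_image]
    refine ⟨((u, v), (q.den, q.num.toNat)), ?_, ?_⟩
    · simp only [Finset.mem_product]
      exact ⟨⟨k1.1, k2.1⟩, k1.2.1, k1.2.2⟩
    · simp only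
      rw [← h1, ← h2, ← h5, ← h6]
  refine (Finset.card_le_card hsub).trans (Finset.card_image_le.trans ?_)
  rw [Finset.card_product, Finset.card_product, Finset.card_product, Finset.card_range,
    Nat.card_Icc, Nat.add_sub_cancel, sq]
  exact Nat.mul_le_mul_right _ (Nat.sqrt_le x)

/-- the pairs of different pairs `(P, Q)` with `log P.1 / log Q.1 = log P.2 / log Q.2` rational -/
noncomputable def Dep' (x : ℕ) : Finset ((ℕ × ℕ) × (ℕ × ℕ)) :=
  (bx x ×ˢ bx x).filter fun s => Same s.1 s.2 ∧ s.1 ≠ s.2 ∧ ¬ Irr s.1.1 s.2.1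

theorem card_Dep' (x : ℕ) : (Dep' x).card ≤ x * (Nat.log 2 x + 1) ^ 2 := by
  refine le_trans (Finset.card_le_card_of_injOn
    (fun s => ((s.1.1, s.2.1), (s.1.2, s.2.2))) ?_ ?_) (card_Dep x)
  · intro s hs
    obtain ⟨hs1, hs2, hs3, hs4⟩ := Finset.mem_filter.1 (Finset.mem_coe.1 hs)
    obtain ⟨hP, hQ⟩ := Finset.mem_product.1 hs1
    have hP' := mem_bx.1 hP
    have hQ' := mem_bx.1 hQ
    refine Finset.mem_coe.2 (Finset.mem_filter.2 ⟨Finset.mem_product.2 ⟨?_, ?_⟩, ?_, ?_, hs4⟩)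
    · rw [mem_bx]
      exact ⟨hP'.1, hP'.2.1, hQ'.1, hQ'.2.1⟩
    · rw [mem_bx]
      exact ⟨hP'.2.2.1, hP'.2.2.2, hQ'.2.2.1, hQ'.2.2.2⟩
    · unfold Same at *
      simp only
      linarith
    · intro h
      exact hs3 (Same.eq_of_fst hP hQ hs2 h)
  · intro s _ t _ h
    simp only [Prod.mk.injEq] at h
    exact Prod.ext (Prod.ext h.1.1 h.2.1) (Prod.ext h.1.2 h.2.2)

/-- among three members of a class there are two different ones, `V` and `V'`, such that every prime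
divisor of `V.1` divides `V'.1` -/
theorem three (x : ℕ) (P : ℕ × ℕ) (hP : P ∈ bx x) (hirr : Irr P.1 P.2) (V : Fin 3 → ℕ × ℕ)
    (hV : ∀ j, V j ∈ bx x) (hS : ∀ j, Same P (V j)) :
    ∃ i j, i ≠ j ∧ ∀ p : ℕ, p.Prime → p ∣ (V i).1 → p ∣ (V j).1 := by
  have hP' := mem_bx.1 hP
  have hV' := fun j => mem_bx.1 (hV j)
  have hla := log_pos' hP'.1
  have h1 := six (Real.log P.2 / Real.log P.1) (fun q hq => hirr q (by rw [← hq]; field_simp))
    (fun j => (V j).1) (fun j => (V j).2) (fun j => by have := hV' j; omega)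
    (fun j => by have := hV' j; omega) (fun j => by
      have := hS j
      unfold Same at this
      field_simp
      linarith)
  rw [Fintype.linearIndependent_iff] at h1
  push Not at h1
  obtain ⟨g, hg, j0, hj0⟩ := h1
  -- a sign pattern
  obtain ⟨j, f, hf, hfj, hf0⟩ : ∃ (j : Fin 3) (f : Fin 3 → ℚ), ∑ i, f i • Real.log (V i).1 = 0 ∧
      (∀ k, k ≠ j → 0 ≤ f k) ∧ ∃ k, f k ≠ 0 := by
    have hneg : ∑ i, (fun i => - g i) i • Real.log (V i).1 = 0 := by
      simp only [neg_smul, Finset.sum_neg_distrib]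
      rw [hg, neg_zero]
    have hneg0 : ∃ k, (fun i => - g i) k ≠ 0 := ⟨j0, by simpa using hj0⟩
    rcases le_total (g 0) 0 with h0 | h0 <;> rcases le_total (g 1) 0 with h1 | h1 <;>
      rcases le_total (g 2) 0 with h2 | h2
    · exact ⟨0, fun i => - g i, hneg, by intro k hk; fin_cases k <;> simp_all, hneg0⟩
    · exact ⟨2, fun i => - g i, hneg, by intro k hk; fin_cases k <;> simp_all, hneg0⟩
    · exact ⟨1, fun i => - g i, hneg, by intro k hk; fin_cases k <;> simp_all, hneg0⟩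
    · exact ⟨0, g, hg, by intro k hk; fin_cases k <;> simp_all, ⟨j0, hj0⟩⟩
    · exact ⟨0, fun i => - g i, hneg, by intro k hk; fin_cases k <;> simp_all, hneg0⟩
    · exact ⟨1, g, hg, by intro k hk; fin_cases k <;> simp_all, ⟨j0, hj0⟩⟩
    · exact ⟨2, g, hg, by intro k hk; fin_cases k <;> simp_all, ⟨j0, hj0⟩⟩
    · exact ⟨0, g, hg, by intro k hk; fin_cases k <;> simp_all, ⟨j0, hj0⟩⟩
  obtain ⟨k, hkj, hk⟩ : ∃ k, k ≠ j ∧ 0 < f k := by
    by_contra hcon
    push Not at hcon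
    have h2 : ∀ k, k ≠ j → f k = 0 := fun k hk => le_antisymm (hcon k hk) (hfj k hk)
    rw [Finset.sum_eq_single j (fun k _ hk => by rw [h2 k hk, zero_smul]) (by simp)] at hf
    have h3 : f j = 0 := by
      rcases smul_eq_zero.1 hf with h | h
      · exact h
      · exact absurd h (log_pos' (hV' j).1).ne'
    obtain ⟨k, hk⟩ := hf0
    by_cases hkj : k = j
    · rw [hkj] at hk
      exact hk h3
    · exact hk (h2 k hkj)
  refine ⟨k, j, hkj, fun p hp hpk => ?_⟩
  by_contra hpj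
  obtain ⟨Φ, hΦ⟩ := exists_val
  have h4 : ∑ i, f i * ((V i).1.factorization p : ℚ) = 0 := by
    have h5 : Φ (∑ i, f i • Real.log (V i).1) p = 0 := by
      rw [hf, map_zero]
      rfl
    rw [map_sum, Finsupp.finsetSum_apply] at h5
    rw [← h5]
    refine Finset.sum_congr rfl fun i _ => ?_
    rw [map_smul, Finsupp.smul_apply, hΦ, smul_eq_mul]
  have h5 : (0 : ℚ) < ∑ i, f i * ((V i).1.factorization p : ℚ) := by
    refine Finset.sum_pos' (fun i _ => ?_) ⟨k, Finset.mem_univ _, ?_⟩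
    · by_cases hij : i = j
      · rw [hij, Nat.factorization_eq_zero_of_not_dvd hpj, Nat.cast_zero, mul_zero]
      · exact mul_nonneg (hfj i hij) (Nat.cast_nonneg _)
    · apply mul_pos hk
      have : 0 < (V k).1.factorization p :=
        hp.factorization_pos_of_dvd (by have := hV' k; omega) hpk
      exact_mod_cast this
  linarith

/-- the pairs in a class with at least three members -/
noncomputable def Big (x : ℕ) : Finset (ℕ × ℕ) :=
  (bx x).filter fun P => Irr P.1 P.2 ∧ 3 ≤ ((bx x).filter (Same P)).card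

/-- the pairs of pairs found by `three` -/
noncomputable def Prs (x : ℕ) : Finset ((ℕ × ℕ) × (ℕ × ℕ)) :=
  (bx x ×ˢ bx x).filter fun s => Same s.1 s.2 ∧ s.1 ≠ s.2 ∧ Irr s.1.1 s.1.2 ∧
    ∀ p : ℕ, p.Prime → p ∣ s.1.1 → p ∣ s.2.1

theorem Irr.of_same {x : ℕ} {P Q : ℕ × ℕ} (_hP : P ∈ bx x) (h : Same P Q) (hi : Irr P.1 P.2)
    (hQ : Q ∈ bx x) : Irr Q.1 Q.2 := by
  intro q hq
  apply hi q
  unfold Same at h
  rw [hq] at h
  apply mul_right_cancel₀ (log_pos' (mem_bx.1 hQ).1).ne'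
  linarith

theorem card_Big (x : ℕ) : (Big x).card ≤ (Nat.log 2 x + 1) ^ 2 * (Prs x).card := by
  have hex : ∀ P ∈ Big x, ∃ s ∈ Prs x, Same P s.1 := by
    intro P hP
    obtain ⟨hP1, hP2, hP3⟩ := Finset.mem_filter.1 hP
    obtain ⟨t, ht, ht3⟩ := Finset.exists_subset_card_eq hP3
    have e : Fintype.card t = 3 := by rw [Fintype.card_coe, ht3]
    let f : Fin 3 ≃ t := (Fintype.equivFinOfCardEq e).symm
    have hf : ∀ j, ((f j : ℕ × ℕ)) ∈ bx x ∧ Same P (f j : ℕ × ℕ) := fun j =>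
      Finset.mem_filter.1 (ht (f j).2)
    obtain ⟨i, j, hij, h⟩ := three x P hP1 hP2 (fun j => (f j : ℕ × ℕ)) (fun j => (hf j).1)
      (fun j => (hf j).2)
    refine ⟨((f i : ℕ × ℕ), (f j : ℕ × ℕ)), Finset.mem_filter.2 ⟨Finset.mem_product.2
      ⟨(hf i).1, (hf j).1⟩, ?_, ?_, ?_, h⟩, (hf i).2⟩
    · exact Same.trans hP1 (hf i).2.symm (hf j).2
    · intro h2
      exact hij (f.injective (Subtype.ext h2))
    · exact Irr.of_same hP1 (hf i).2 hP2 (hf i).1
  choose! φ hφ1 hφ2 using hex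
  rw [mul_comm]
  refine (Finset.card_le_mul_card_image_of_maps_to (f := φ) (t := Prs x) (fun P hP => hφ1 P hP)
    ((Nat.log 2 x + 1) ^ 2) ?_).trans (le_of_eq (mul_comm _ _))
  intro s hs
  obtain ⟨hs1, hs2, hs3, hs4, hs5⟩ := Finset.mem_filter.1 hs
  obtain ⟨hV, -⟩ := Finset.mem_product.1 hs1
  refine (Finset.card_le_card ?_).trans (class_card x s.1.1 s.1.2 (mem_bx.1 hV).1 hs4)
  intro P hP
  obtain ⟨hP1, hP2⟩ := Finset.mem_filter.1 hP
  refine Finset.mem_filter.2 ⟨(Finset.mem_filter.1 hP1).1, ?_⟩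
  have := hφ2 P hP1
  rw [hP2] at this
  exact this.symm

theorem card_Prs (x : ℕ) : (Prs x).card ≤ x * (Nat.log 2 x + 1) ^ 2 + (Nat.log 2 x + 1) ^ 2 *
    (((Finset.Icc 2 x) ×ˢ (Finset.Icc 2 x)).filter
      (fun s : ℕ × ℕ => ∀ p : ℕ, p.Prime → p ∣ s.1 → p ∣ s.2)).card := by
  rw [← Finset.card_filter_add_card_filter_not (s := Prs x) (fun s => Irr s.1.1 s.2.1), add_comm]
  refine Nat.add_le_add ?_ ?_
  · refine (Finset.card_le_card ?_).trans (card_Dep' x)
    intro s hs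
    obtain ⟨hs1, hs2⟩ := Finset.mem_filter.1 hs
    obtain ⟨hs3, hs4, hs5, -, -⟩ := Finset.mem_filter.1 hs1
    exact Finset.mem_filter.2 ⟨hs3, hs4, hs5, hs2⟩
  · refine Finset.card_le_mul_card_image_of_maps_to (f := fun s => (s.1.1, s.2.1)) ?_ _ ?_
    · intro s hs
      obtain ⟨hs1, hs2⟩ := Finset.mem_filter.1 hs
      obtain ⟨hs3, hs4, hs5, hs6, hs7⟩ := Finset.mem_filter.1 hs1
      obtain ⟨hV, hW⟩ := Finset.mem_product.1 hs3
      have hV' := mem_bx.1 hV
      have hW' := mem_bx.1 hW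
      refine Finset.mem_filter.2 ⟨Finset.mem_product.2 ⟨?_, ?_⟩, hs7⟩
      · exact Finset.mem_Icc.2 ⟨hV'.1, hV'.2.1⟩
      · exact Finset.mem_Icc.2 ⟨hW'.1, hW'.2.1⟩
    · intro c hc
      obtain ⟨hc1, hc2⟩ := Finset.mem_filter.1 hc
      by_cases hi : Irr c.1 c.2
      · refine (Finset.card_le_card_of_injOn (fun s => (s.1.2, s.2.2)) ?_ ?_).trans
          (class_card x c.1 c.2 (Finset.mem_Icc.1 (Finset.mem_product.1 hc1).1).1 hi)
        · intro s hs
          obtain ⟨hs1, hs2⟩ := Finset.mem_filter.1 (Finset.mem_coe.1 hs)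
          obtain ⟨hs3, hs4, -⟩ := Finset.mem_filter.1 (Finset.mem_filter.1 hs1).1
          obtain ⟨hV, hW⟩ := Finset.mem_product.1 hs3
          have hV' := mem_bx.1 hV
          have hW' := mem_bx.1 hW
          refine Finset.mem_coe.2 (Finset.mem_filter.2 ⟨mem_bx.2
            ⟨hV'.2.2.1, hV'.2.2.2, hW'.2.2.1, hW'.2.2.2⟩, ?_⟩)
          rw [← hs2]
          unfold Same at *
          simp only
          linarith
        · intro s hs t ht hst
          obtain ⟨-, hs2⟩ := Finset.mem_filter.1 (Finset.mem_coe.1 hs)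
          obtain ⟨-, ht2⟩ := Finset.mem_filter.1 (Finset.mem_coe.1 ht)
          simp only [Prod.mk.injEq] at hst
          have h1 := hs2.trans ht2.symm
          simp only [Prod.mk.injEq] at h1
          exact Prod.ext (Prod.ext h1.1 hst.1) (Prod.ext h1.2 hst.2)
      · refine le_of_eq_of_le (Finset.card_eq_zero.2 ?_) (Nat.zero_le _)
        rw [Finset.filter_eq_empty_iff]
        intro s hs hs2
        apply hi
        rw [← hs2]
        exact (Finset.mem_filter.1 hs).2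

end Pool.Agent.V8H74.EN
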