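import Pool.Agent.H301R2.SSE.Forms
import Pool.Agent.H297R2.Density

/-!
# Integers whose logarithms lie in a rational space of finite dimension
-/

set_option autoImplicit false

namespace Pool.Agent.V8H74.EN

open Module Finset

theorem primes_indep {ι : Type} (p : ι → ℕ) (hp : ∀ i, (p i).Prime) (hinj : Function.Injective p) :
    LinearIndependent ℚ (fun i => Real.log (p i)) := by
  rw [linearIndependent_iff_finset_linearIndependent]
  intro s
  have h1 := Pool.Agent.H297R2.linearIndependent_log_prime (ι := s) (fun i => p i)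
    (fun i => hp i) (fun a b h => Subtype.ext (hinj h))
  rw [Fintype.linearIndependent_iff] at h1 ⊢
  intro g hg
  refine h1 g ?_
  have h2 : ((∑ i : s, g i • Real.log (p i) : ℝ) : ℂ) = 0 := by
    have h3 : (∑ i : s, g i • Real.log (p i) : ℝ) = 0 := hg
    rw [h3, Complex.ofReal_zero]
  rw [← h2, Complex.ofReal_sum]
  refine Finset.sum_congr rfl fun i _ => ?_
  rw [Rat.smul_def, Rat.smul_def, Complex.ofReal_mul, Complex.ofReal_ratCast]

/-- a rational linear map with `Φ (log n) = (v_p n)_p` -/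
theorem exists_val : ∃ Φ : ℝ →ₗ[ℚ] (ℕ →₀ ℚ), ∀ n : ℕ, ∀ p : ℕ,
    Φ (Real.log n) p = n.factorization p := by
  classical
  let P := {p : ℕ // p.Prime}
  have hli : LinearIndependent ℚ (fun i : P => Real.log ((i : ℕ) : ℝ)) :=
    primes_indep (fun i : P => (i : ℕ)) (fun i => i.2) Subtype.val_injective
  obtain ⟨g, hg⟩ := LinearMap.exists_extend (p := Submodule.span ℚ (Set.range fun i : P => Real.log ((i : ℕ) : ℝ)))
    hli.repr
  refine ⟨(Finsupp.lmapDomain ℚ ℚ (fun i : P => (i : ℕ))).comp g, fun n p => ?_⟩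
  have h1 : ∀ i : P, g (Real.log ((i : ℕ) : ℝ)) = Finsupp.single i 1 := by
    intro i
    have h2 := LinearMap.congr_fun hg ⟨Real.log ((i : ℕ) : ℝ), Submodule.subset_span ⟨i, rfl⟩⟩
    rw [LinearMap.comp_apply, Submodule.subtype_apply] at h2
    exact h2.trans (hli.repr_eq_single i _ rfl)
  have h3 : ∀ q : ℕ, q.Prime → ((Finsupp.lmapDomain ℚ ℚ (fun i : P => (i : ℕ))).comp g) (Real.log q) =
      Finsupp.single q 1 := by
    intro q hq
    rw [LinearMap.comp_apply, h1 ⟨q, hq⟩, Finsupp.lmapDomain_apply, Finsupp.mapDomain_single]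
  rw [Real.log_nat_eq_sum_factorization, Finsupp.sum, map_sum, Finsupp.finsetSum_apply]
  have h4 : ∀ q ∈ n.factorization.support,
      (((Finsupp.lmapDomain ℚ ℚ (fun i : P => (i : ℕ))).comp g) (((n.factorization q : ℕ) : ℝ) * Real.log q)) p =
        if q = p then (n.factorization q : ℚ) else 0 := by
    intro q hq
    have hq' : q.Prime := Nat.prime_of_mem_primeFactors (by simpa using hq)
    have e : ((n.factorization q : ℕ) : ℝ) * Real.log q = ((n.factorization q : ℕ) : ℚ) • Real.log q := by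
      rw [Rat.smul_def]
      push_cast
      rfl
    rw [e, map_smul, h3 q hq', Finsupp.smul_apply, Finsupp.single_apply]
    split_ifs <;> simp
  rw [Finset.sum_congr rfl h4]
  by_cases hp : p ∈ n.factorization.support
  · rw [Finset.sum_ite_eq' n.factorization.support p]
    rw [if_pos hp]
  · rw [Finset.sum_ite_eq' n.factorization.support p, if_neg hp]
    rw [Finsupp.notMem_support_iff.1 hp, Nat.cast_zero]

/-- few coordinates determine the elements of a finite dimensional space -/
theorem coords : ∀ (d : ℕ) (U : Submodule ℚ (ℕ →₀ ℚ)) [FiniteDimensional ℚ U], finrank ℚ U ≤ d →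
    ∃ T : Finset ℕ, T.card ≤ d ∧ ∀ u ∈ U, (∀ p ∈ T, u p = 0) → u = 0 := by
  intro d
  induction d with
  | zero =>
    intro U _ hU
    refine ⟨∅, by simp, fun u hu _ => ?_⟩
    have h1 : U = ⊥ := by
      rw [← Submodule.finrank_eq_zero (R := ℚ)]
      omega
    rw [h1] at hu
    exact (Submodule.mem_bot ℚ).1 hu
  | succ d ih =>
    intro U _ hU
    by_cases h0 : ∀ u ∈ U, u = 0
    · exact ⟨∅, by simp, fun u hu _ => h0 u hu⟩
    push Not at h0
    obtain ⟨u, hu, hu0⟩ := h0
    obtain ⟨p, hp⟩ : ∃ p, u p ≠ 0 := by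
      by_contra hcon
      push Not at hcon
      exact hu0 (Finsupp.ext hcon)
    have hlt : U ⊓ LinearMap.ker (Finsupp.lapply p : (ℕ →₀ ℚ) →ₗ[ℚ] ℚ) < U := by
      refine lt_of_le_of_ne inf_le_left fun h => hp ?_
      rw [← h] at hu
      exact LinearMap.mem_ker.1 hu.2
    have : FiniteDimensional ℚ (U ⊓ LinearMap.ker (Finsupp.lapply p : (ℕ →₀ ℚ) →ₗ[ℚ] ℚ) : Submodule ℚ (ℕ →₀ ℚ)) :=
      Submodule.finiteDimensional_of_le inf_le_left
    obtain ⟨T, hT, hT2⟩ := ih (U ⊓ LinearMap.ker (Finsupp.lapply p : (ℕ →₀ ℚ) →ₗ[ℚ] ℚ)) (by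
      have := Submodule.finrank_lt_finrank_of_lt hlt
      omega)
    refine ⟨insert p T, (Finset.card_insert_le _ _).trans (by omega), fun v hv hv0 => ?_⟩
    refine hT2 v ⟨hv, ?_⟩ fun q hq => hv0 q (Finset.mem_insert_of_mem hq)
    exact LinearMap.mem_ker.2 (hv0 p (Finset.mem_insert_self _ _))

/-- there are few integers up to `x` with logarithm in a space of dimension `r` -/
theorem count_rank (W : Submodule ℚ ℝ) [FiniteDimensional ℚ W] (r : ℕ) (hr : finrank ℚ W ≤ r) (x : ℕ)
    (s : Finset ℕ) (hs : ∀ c ∈ s, 1 ≤ c ∧ c ≤ x ∧ Real.log c ∈ W) :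
    s.card ≤ (Nat.log 2 x + 1) ^ r := by
  classical
  obtain ⟨Φ, hΦ⟩ := exists_val
  obtain ⟨T, hT, hT2⟩ := coords r (W.map Φ) ((Submodule.finrank_map_le Φ W).trans hr)
  have h1 : s.card ≤ (Fintype.piFinset fun _ : T => Finset.range (Nat.log 2 x + 1)).card := by
    refine Finset.card_le_card_of_injOn (fun c => fun p : T => c.factorization p) ?_ ?_
    · intro c hc
      obtain ⟨hc1, hc2, -⟩ := hs c hc
      simp only [Finset.mem_coe, Fintype.mem_piFinset, Finset.mem_range]
      intro p
      rw [Nat.lt_succ_iff]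
      by_cases hp : (p : ℕ).Prime
      · have h2 : (p : ℕ) ^ c.factorization p ∣ c := Nat.ordProj_dvd c p
        have h3 : 2 ^ c.factorization p ≤ x :=
          (Nat.pow_le_pow_left hp.two_le _).trans ((Nat.le_of_dvd (by omega) h2).trans hc2)
        exact Nat.le_log_of_pow_le (by norm_num) h3
      · rw [Nat.factorization_eq_zero_of_not_prime c hp]
        exact Nat.zero_le _
    · intro c hc c' hc' h
      obtain ⟨hc1, hc2, hcW⟩ := hs c hc
      obtain ⟨hc1', hc2', hcW'⟩ := hs c' hc'
      have h4 : Φ (Real.log c) - Φ (Real.log c') = 0 := by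
        refine hT2 _ ?_ fun p hp => ?_
        · rw [← map_sub]
          exact Submodule.mem_map_of_mem (W.sub_mem hcW hcW')
        · rw [Finsupp.sub_apply, hΦ, hΦ]
          have := congrFun h ⟨p, hp⟩
          simp only at this
          rw [this, sub_self]
      refine Nat.eq_of_factorization_eq (by omega) (by omega) fun p => ?_
      have h5 : Φ (Real.log c) p = Φ (Real.log c') p := by rw [sub_eq_zero.1 h4]
      rw [hΦ, hΦ] at h5
      exact_mod_cast h5
  refine h1.trans ?_
  rw [Fintype.card_piFinset, Finset.prod_const, Finset.card_univ, Fintype.card_coe, Finset.card_range]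
  exact Nat.pow_le_pow_right (by omega) hT

/-- **six exponentials theorem** for integers -/
theorem six (lam : ℝ) (hlam : ∀ q : ℚ, lam ≠ q) (c d : Fin 3 → ℕ) (hc : ∀ j, 0 < c j)
    (hd : ∀ j, 0 < d j) (h : ∀ j, Real.log (d j) = lam * Real.log (c j)) :
    ¬ LinearIndependent ℚ (fun j => Real.log (c j)) := by
  intro hli
  have hbot : ∀ a : (⊥ : IntermediateField ℚ ℂ), ∃ q : ℚ, (a : ℂ) = q := by
    intro a
    obtain ⟨q, hq⟩ := IntermediateField.mem_bot.1 a.2
    exact ⟨q, by rw [← hq]; simp⟩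
  have halg : ∀ n : ℕ, 0 < n → IsAlgebraic ℚ (Complex.exp ((Real.log n : ℝ) : ℂ)) := by
    intro n hn
    have h0 : (0 : ℝ) < n := by exact_mod_cast hn
    rw [← Complex.ofReal_exp, Real.exp_log h0, Complex.ofReal_natCast]
    exact isAlgebraic_natCast n
  have h1 := Pool.Agent.H301R2.SSE.sharp_strong ⊥ ![1, (lam : ℂ)] (fun j => ((Real.log (c j) : ℝ) : ℂ))
    (fun _ _ => 0) ?_ ?_ (fun _ _ => isAlgebraic_zero) ?_ 0 0
  · simp only [Matrix.cons_val_zero, one_mul] at h1
    exact hli.ne_zero 0 (by exact_mod_cast h1)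
  · intro a b hab
    obtain ⟨p, hp⟩ := hbot a
    obtain ⟨q, hq⟩ := hbot b
    simp only [Matrix.cons_val_zero, Matrix.cons_val_one, mul_one] at hab
    rw [hp, hq] at hab
    have h2 : (p : ℝ) + q * lam = 0 := by exact_mod_cast hab
    have hq0 : q = 0 := by
      by_contra hq0
      apply hlam (-p / q)
      have hq0' : (q : ℝ) ≠ 0 := by exact_mod_cast hq0
      push_cast
      field_simp
      linarith
    rw [hq0] at h2 hq
    have hp0 : p = 0 := by
      have : (p : ℝ) = 0 := by simpa using h2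
      exact_mod_cast this
    rw [hp0] at hp
    constructor
    · apply Subtype.ext
      rw [hp]
      simp
    · apply Subtype.ext
      rw [hq]
      simp
  · intro g hg
    choose q hq using fun j => hbot (g j)
    simp only [hq] at hg
    have h2 : ∑ j, q j • Real.log (c j) = 0 := by
      simp only [Rat.smul_def]
      exact_mod_cast hg
    have h3 := Fintype.linearIndependent_iff.1 hli q h2
    intro j
    apply Subtype.ext
    rw [hq, h3 j]
    simp
  · intro i j
    rw [sub_zero]
    apply Submodule.subset_span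
    fin_cases i
    · show IsAlgebraic ℚ (Complex.exp ((1 : ℂ) * ((Real.log (c j) : ℝ) : ℂ)))
      rw [one_mul]
      exact halg _ (hc j)
    · show IsAlgebraic ℚ (Complex.exp ((lam : ℂ) * ((Real.log (c j) : ℝ) : ℂ)))
      rw [← Complex.ofReal_mul, ← h j]
      exact halg _ (hd j)

/-- the logarithms `log c` such that `lam * log c` is also the logarithm of an integer -/
noncomputable def Wl (lam : ℝ) : Submodule ℚ ℝ :=
  Submodule.span ℚ {y | ∃ c d : ℕ, 0 < c ∧ 0 < d ∧ y = Real.log c ∧ Real.log d = lam * Real.log c}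

theorem Wl_rank (lam : ℝ) (hlam : ∀ q : ℚ, lam ≠ q) :
    FiniteDimensional ℚ (Wl lam) ∧ finrank ℚ (Wl lam) ≤ 2 := by
  obtain ⟨b, hb, hspan, hli⟩ := exists_linearIndependent ℚ
    {y : ℝ | ∃ c d : ℕ, 0 < c ∧ 0 < d ∧ y = Real.log c ∧ Real.log d = lam * Real.log c}
  have h3 : ∀ f : Fin 3 → b, ¬ Function.Injective f := by
    intro f hf
    choose c d hc hd hy hcd using fun j => hb (f j).2
    apply six lam hlam c d hc hd hcd
    have h4 := hli.comp f hf
    have e : (fun j => Real.log (c j)) = ((fun y : b => (y : ℝ)) ∘ f) := by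
      funext j
      exact (hy j).symm
    rw [e]
    exact h4
  have hfin : b.Finite := by
    by_contra hcon
    have hcon' : b.Infinite := hcon
    obtain ⟨f, hf⟩ : ∃ f : ℕ → b, Function.Injective f :=
      ⟨_, (Set.Infinite.natEmbedding b hcon').injective⟩
    exact h3 (fun j : Fin 3 => f j) (fun i j hij => Fin.ext (hf hij))
  have hcard : b.ncard ≤ 2 := by
    by_contra hcon
    have := hfin.fintype
    rw [not_le, ← _root_.Nat.card_coe_set_eq, Nat.card_eq_fintype_card] at hcon
    obtain ⟨f⟩ : Nonempty (Fin 3 ↪ b) := by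
      apply Function.Embedding.nonempty_of_card_le
      rw [Fintype.card_fin]
      omega
    exact h3 f f.injective
  unfold Wl
  rw [← hspan]
  have := hfin.fintype
  refine ⟨FiniteDimensional.span_of_finite ℚ hfin, ?_⟩
  refine (finrank_span_le_card (R := ℚ) b).trans ?_
  rw [← Set.ncard_eq_toFinset_card']
  exact hcard

end Pool.Agent.V8H74.EN
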